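import Pool.Agent.Helper28.HN.Defs

/-!
# Homogeneity of the constructions of `HN/Defs`
-/

set_option autoImplicit false

namespace Pool.Agent.Helper37.XN

open Pool.Agent.Helper28.HN

section hom

variable {m : ℕ} {S : Type*} [CommRing S]

theorem lf_smul (c : Ix m → S) (r : Fin m) (a b : S) (x y : I m → S) :
    lf c r (fun i => a * x i) (fun i => b * y i) = a * b * lf c r x y := by
  simp only [lf, Finset.mul_sum]
  refine Finset.sum_congr rfl fun i _ => Finset.sum_congr rfl fun j _ => ?_
  ring

theorem lf_smul_left (c : Ix m → S) (r : Fin m) (a : S) (x y : I m → S) :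
    lf c r (fun i => a * x i) y = a * lf c r x y := by
  simp only [lf, Finset.mul_sum]
  refine Finset.sum_congr rfl fun i _ => Finset.sum_congr rfl fun j _ => ?_
  ring

theorem lf_smul_right (c : Ix m → S) (r : Fin m) (b : S) (x y : I m → S) :
    lf c r x (fun i => b * y i) = b * lf c r x y := by
  simp only [lf, Finset.mul_sum]
  refine Finset.sum_congr rfl fun i _ => Finset.sum_congr rfl fun j _ => ?_
  ring

theorem qf_smul (c : Ix m → S) (a a' b b' : S) (x x' y y' : I m → S) :
    qf c (fun i => a * x i) (fun i => a' * x' i) (fun i => b * y i) (fun i => b' * y' i) =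
      a * a' * b * b' * qf c x x' y y' := by
  simp only [qf, Finset.mul_sum]
  refine Finset.sum_congr rfl fun i _ => Finset.sum_congr rfl fun j _ =>
    Finset.sum_congr rfl fun k _ => Finset.sum_congr rfl fun l _ => ?_
  ring

theorem Mx_smul (c : Ix m → S) (a : S) (x : I m → S) :
    Mx c (fun i => a * x i) = a • Mx c x := by
  ext r b
  exact lf_smul_left c r a x _

theorem Nx_smul (c : Ix m → S) (b : S) (y : I m → S) :
    Nx c (fun i => b * y i) = b • Nx c y := by
  ext r i
  exact lf_smul_right c r b _ y

theorem adj_smul (a : S) (M : Matrix (Fin m) (Fin m) S) (v : Fin m → S) (b : Fin m) :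
    (a • M).adjugate.mulVec (fun r => a * v r) b = a ^ m * M.adjugate.mulVec v b := by
  have hm : m = m - 1 + 1 := by have := b.pos; omega
  have h1 : (fun r => a * v r) = a • v := rfl
  rw [Matrix.adjugate_smul, Fintype.card_fin, h1, Matrix.smul_mulVec, Matrix.mulVec_smul, smul_smul,
    Pi.smul_apply, smul_eq_mul, ← pow_succ, ← hm]

theorem dMx_smul (c : Ix m → S) (a : S) (x : I m → S) :
    (Mx c fun i => a * x i).det = a ^ m * (Mx c x).det := by
  rw [Mx_smul, Matrix.det_smul, Fintype.card_fin]

theorem dNx_smul (c : Ix m → S) (b : S) (y : I m → S) :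
    (Nx c fun i => b * y i).det = b ^ m * (Nx c y).det := by
  rw [Nx_smul, Matrix.det_smul, Fintype.card_fin]

theorem Y0_smul (c : Ix m → S) (a : S) (x : I m → S) :
    Y0 c (fun i => a * x i) = fun i => a ^ m * Y0 c x i := by
  funext i
  refine Fin.cases ?_ (fun i => Fin.cases ?_ (fun j => ?_) i) i
  · exact dMx_smul c a x
  · exact (mul_zero _).symm
  · show -(((Mx c fun i => a * x i).adjugate.mulVec fun r => lf c r (fun i => a * x i) (Pi.single 0 1)) j) =
      a ^ m * -(((Mx c x).adjugate.mulVec fun r => lf c r x (Pi.single 0 1)) j)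
    rw [Mx_smul, show (fun r => lf c r (fun i => a * x i) (Pi.single 0 1)) =
      fun r => a * lf c r x (Pi.single 0 1) from funext fun r => lf_smul_left c r a x _, adj_smul]
    ring

theorem Y1_smul (c : Ix m → S) (a : S) (x : I m → S) :
    Y1 c (fun i => a * x i) = fun i => a ^ m * Y1 c x i := by
  funext i
  refine Fin.cases ?_ (fun i => Fin.cases ?_ (fun j => ?_) i) i
  · exact (mul_zero _).symm
  · exact dMx_smul c a x
  · show -(((Mx c fun i => a * x i).adjugate.mulVec fun r => lf c r (fun i => a * x i) (Pi.single 1 1)) j) =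
      a ^ m * -(((Mx c x).adjugate.mulVec fun r => lf c r x (Pi.single 1 1)) j)
    rw [Mx_smul, show (fun r => lf c r (fun i => a * x i) (Pi.single 1 1)) =
      fun r => a * lf c r x (Pi.single 1 1) from funext fun r => lf_smul_left c r a x _, adj_smul]
    ring

theorem vh_smul (c : Ix m → S) (b : S) (y : I m → S) :
    vh c (fun i => b * y i) = fun i => b ^ m * vh c y i := by
  funext i
  refine Fin.lastCases ?_ (fun j => ?_) i
  · simp only [vh, Fin.snoc_last]
    exact dNx_smul c b y
  · simp only [vh, Fin.snoc_castSucc, Pi.neg_apply]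
    rw [Nx_smul, show (fun r => lf c r (Pi.single (Fin.last (m + 1)) 1) (fun i => b * y i)) =
      fun r => b * lf c r (Pi.single (Fin.last (m + 1)) 1) y from
        funext fun r => lf_smul_right c r b _ y, adj_smul]
    ring

theorem xh_smul (c : Ix m → S) (b : S) (y : I m → S) :
    xh c (fun i => b * y i) = fun i => b ^ m * xh c y i := by
  funext i
  refine Fin.cases ?_ (fun j => ?_) i
  · exact (mul_zero _).symm
  · exact congrFun (vh_smul c b y) j

theorem Ah_smul (c : Ix m → S) (a : S) (x : I m → S) :
    Ah c (fun i => a * x i) = a ^ (2 * m + 2) * Ah c x := by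
  rw [Ah, Y1_smul, qf_smul, Ah]
  ring

theorem Kx_smul (c : Ix m → S) (b : S) (y : I m → S) :
    qf c (xh c fun i => b * y i) (xh c fun i => b * y i) (fun i => b * y i) (fun i => b * y i) =
      b ^ (2 * m + 2) * qf c (xh c y) (xh c y) y y := by
  rw [xh_smul, qf_smul]
  ring

theorem nx_smul (c : Ix m → S) (a b : S) (x y : I m → S) (i : I m) :
    nx c (fun i => a * x i) (fun i => b * y i) i = a * b ^ (2 * m + 2) * nx c x y i := by
  show qf c (xh c fun i => b * y i) (xh c fun i => b * y i) (fun i => b * y i) (fun i => b * y i) * (a * x i) -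
      2 * qf c (fun i => a * x i) (xh c fun i => b * y i) (fun i => b * y i) (fun i => b * y i) *
        xh c (fun i => b * y i) i =
    a * b ^ (2 * m + 2) * (qf c (xh c y) (xh c y) y y * x i - 2 * qf c x (xh c y) y y * xh c y i)
  rw [Kx_smul, xh_smul, qf_smul]
  ring

theorem ny_smul (c : Ix m → S) (a b : S) (x y : I m → S) (i : I m) :
    ny c (fun i => a * x i) (fun i => b * y i) i = a ^ (2 * m + 2) * b * ny c x y i := by
  show Ah c (fun i => a * x i) * (b * y i) -
      2 * qf c (fun i => a * x i) (fun i => a * x i) (fun i => b * y i) (Y1 c fun i => a * x i) *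
        Y1 c (fun i => a * x i) i =
    a ^ (2 * m + 2) * b * (Ah c x * y i - 2 * qf c x x y (Y1 c x) * Y1 c x i)
  rw [Ah_smul, Y1_smul, qf_smul]
  ring

end hom

end Pool.Agent.Helper37.XN
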