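import Pool.Agent.Helper23.HNG.Map
import Pool.Agent.Helper37.XN.Hom

/-!
# The chain of curves and its points

* `ch_map`: the chain commutes with ring homs.
* `lf_Y1`, `lf_xh`: kernel lemmas; `onX_ny`, `onX_nx`: both involutions preserve `OnX`; `onX_ch`: the
  curves of the chain lie on the complete intersection.
* `Rz_scale`, `Rz_map`, `Rz_ny`, `Rz_nx`: points of the curves.
* `aeval_fst_zero`, `aeval_snd_zero`: a form which vanishes on the curve vanishes at its points.
* `fst_ne`, `snd_ne`, `Ah_ne`, `Kx_ne`: nonvanishing on the curve from one point.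
-/

set_option autoImplicit false

namespace Pool.Agent.Helper37.XN

open MvPolynomial Pool.Agent.Helper28.HN Pool.Agent.Helper23.HNG

section basic

variable {m : ℕ} {S : Type*} [CommRing S]

theorem ch_zero (c : Ix m → S) (x0 ξ0 y1 : I m → S) :
    ch c x0 ξ0 y1 0 = (fun i => Polynomial.C (x0 i) + Polynomial.X * Polynomial.C (ξ0 i),
      fun i => Polynomial.C (y1 i)) := rfl

theorem ch_even (c : Ix m → S) (x0 ξ0 y1 : I m → S) {N : ℕ} (hN : Even N) :
    ch c x0 ξ0 y1 (N + 1) = ((ch c x0 ξ0 y1 N).1,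
      ny (fun e => Polynomial.C (c e)) (ch c x0 ξ0 y1 N).1 (ch c x0 ξ0 y1 N).2) := by
  rw [ch, if_pos (Nat.even_iff.1 hN)]

theorem ch_odd (c : Ix m → S) (x0 ξ0 y1 : I m → S) {N : ℕ} (hN : Odd N) :
    ch c x0 ξ0 y1 (N + 1) =
      (nx (fun e => Polynomial.C (c e)) (ch c x0 ξ0 y1 N).1 (ch c x0 ξ0 y1 N).2,
        (ch c x0 ξ0 y1 N).2) := by
  rw [ch, if_neg]
  have := Nat.odd_iff.1 hN
  omega

theorem ch_map {T : Type*} [CommRing T] (f : S →+* T) (c : Ix m → S) (x0 ξ0 y1 : I m → S) (N : ℕ) :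
    (∀ i, (ch (fun e => f (c e)) (fun i => f (x0 i)) (fun i => f (ξ0 i)) (fun i => f (y1 i)) N).1 i =
      ((ch c x0 ξ0 y1 N).1 i).map f) ∧
    ∀ i, (ch (fun e => f (c e)) (fun i => f (x0 i)) (fun i => f (ξ0 i)) (fun i => f (y1 i)) N).2 i =
      ((ch c x0 ξ0 y1 N).2 i).map f := by
  induction N with
  | zero =>
    refine ⟨fun i => ?_, fun i => ?_⟩
    · rw [ch_zero, ch_zero]
      simp
    · rw [ch_zero, ch_zero]
      simp
  | succ N ih =>
    have hc : (fun e => Polynomial.mapRingHom f (Polynomial.C (c e))) = fun e => Polynomial.C (f (c e)) := by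
      funext e
      simp
    have h1 : (fun i => Polynomial.mapRingHom f ((ch c x0 ξ0 y1 N).1 i)) =
        (ch (fun e => f (c e)) (fun i => f (x0 i)) (fun i => f (ξ0 i)) (fun i => f (y1 i)) N).1 := by
      funext i
      rw [ih.1 i]
      rfl
    have h2 : (fun i => Polynomial.mapRingHom f ((ch c x0 ξ0 y1 N).2 i)) =
        (ch (fun e => f (c e)) (fun i => f (x0 i)) (fun i => f (ξ0 i)) (fun i => f (y1 i)) N).2 := by
      funext i
      rw [ih.2 i]
      rfl
    rcases Nat.even_or_odd N with hN | hN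
    · rw [ch_even _ _ _ _ hN, ch_even _ _ _ _ hN]
      refine ⟨fun i => ih.1 i, fun i => ?_⟩
      have h := map_ny (Polynomial.mapRingHom f) (fun e => Polynomial.C (c e)) (ch c x0 ξ0 y1 N).1
        (ch c x0 ξ0 y1 N).2 i
      rw [hc, h1, h2] at h
      exact h.symm
    · rw [ch_odd _ _ _ _ hN, ch_odd _ _ _ _ hN]
      refine ⟨fun i => ?_, fun i => ih.2 i⟩
      have h := map_nx (Polynomial.mapRingHom f) (fun e => Polynomial.C (c e)) (ch c x0 ξ0 y1 N).1
        (ch c x0 ξ0 y1 N).2 i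
      rw [hc, h1, h2] at h
      exact h.symm

end basic

section onx

variable {m : ℕ} {S : Type*} [CommRing S]

theorem lf_expand (c : Ix m → S) (r : Fin m) (x y : I m → S) :
    lf c r x y = ∑ j, y j * lf c r x (Pi.single j 1) := by
  simp only [lf]
  rw [Finset.sum_comm]
  refine Finset.sum_congr rfl fun j _ => ?_
  rw [Finset.mul_sum]
  refine Finset.sum_congr rfl fun i _ => ?_
  rw [Finset.sum_eq_single j]
  · rw [Pi.single_eq_same]
    ring
  · intro b _ hb
    rw [Pi.single_eq_of_ne hb, mul_zero]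
  · intro h
    exact absurd (Finset.mem_univ j) h

theorem lf_expand' (c : Ix m → S) (r : Fin m) (x y : I m → S) :
    lf c r x y = ∑ i, x i * lf c r (Pi.single i 1) y := by
  simp only [lf]
  refine Finset.sum_congr rfl fun i _ => ?_
  have h1 : ∀ b : I m, b ≠ i → ∑ j, c (.inl (r, b, j)) * (Pi.single i (1 : S) : I m → S) b * y j = 0 := by
    intro b hb
    refine Finset.sum_eq_zero fun j _ => ?_
    rw [Pi.single_eq_of_ne hb, mul_zero, zero_mul]
  rw [Finset.sum_eq_single i (fun b _ hb => h1 b hb) (fun h => absurd (Finset.mem_univ i) h), Finset.mul_sum]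
  refine Finset.sum_congr rfl fun j _ => ?_
  rw [Pi.single_eq_same]
  ring

theorem lf_Y1 (c : Ix m → S) (r : Fin m) (x : I m → S) : lf c r x (Y1 c x) = 0 := by
  rw [lf_expand, Fin.sum_univ_succ, Fin.sum_univ_succ]
  have h1 : Y1 c x 0 = 0 := rfl
  have h2 : Y1 c x (Fin.succ 0) = (Mx c x).det := rfl
  have h3 : ∀ b : Fin m, Y1 c x b.succ.succ =
      -(((Mx c x).adjugate.mulVec fun r => lf c r x (Pi.single 1 1)) b) := fun b => rfl
  rw [h1, h2, zero_mul, zero_add]
  have h4 : ∑ b : Fin m, Y1 c x b.succ.succ * lf c r x (Pi.single b.succ.succ 1) =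
      -((Mx c x).mulVec ((Mx c x).adjugate.mulVec fun r => lf c r x (Pi.single 1 1)) r) := by
    rw [Matrix.mulVec, dotProduct, ← Finset.sum_neg_distrib]
    refine Finset.sum_congr rfl fun b _ => ?_
    rw [h3 b]
    show _ = -(lf c r x (Pi.single b.succ.succ 1) * _)
    ring
  rw [h4, Matrix.mulVec_mulVec, Matrix.mul_adjugate, Matrix.smul_mulVec, Matrix.one_mulVec]
  show (Mx c x).det * lf c r x (Pi.single 1 1) + -((Mx c x).det * lf c r x (Pi.single 1 1)) = 0
  ring

theorem lf_xh (c : Ix m → S) (r : Fin m) (y : I m → S) : lf c r (xh c y) y = 0 := by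
  rw [lf_expand', Fin.sum_univ_succ, Fin.sum_univ_castSucc]
  have h1 : xh c y 0 = 0 := rfl
  have h2 : xh c y (Fin.last m).succ = (Nx c y).det := by
    show vh c y (Fin.last m) = _
    rw [vh, Fin.snoc_last]
  have h3 : ∀ b : Fin m, xh c y b.castSucc.succ =
      -(((Nx c y).adjugate.mulVec fun r => lf c r (Pi.single (Fin.last (m + 1)) 1) y) b) := by
    intro b
    show vh c y b.castSucc = _
    rw [vh, Fin.snoc_castSucc]
    rfl
  rw [h1, h2, zero_mul, zero_add]
  have h4 : ∑ b : Fin m, xh c y b.castSucc.succ * lf c r (Pi.single b.castSucc.succ 1) y =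
      -((Nx c y).mulVec ((Nx c y).adjugate.mulVec fun r => lf c r (Pi.single (Fin.last (m + 1)) 1) y) r) := by
    rw [Matrix.mulVec, dotProduct, ← Finset.sum_neg_distrib]
    refine Finset.sum_congr rfl fun b _ => ?_
    rw [h3 b]
    show _ = -(lf c r (Pi.single b.castSucc.succ 1) y * _)
    ring
  rw [h4, Matrix.mulVec_mulVec, Matrix.mul_adjugate, Matrix.smul_mulVec, Matrix.one_mulVec]
  show -((Nx c y).det * lf c r (Pi.single (Fin.last (m + 1)) 1) y) +
    (Nx c y).det * lf c r (Pi.single (Fin.last (m + 1)) 1) y = 0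
  ring

theorem lf_sub_right (c : Ix m → S) (r : Fin m) (a b : S) (x y y' : I m → S) :
    lf c r x (fun i => a * y i - b * y' i) = a * lf c r x y - b * lf c r x y' := by
  simp only [lf, Finset.mul_sum, ← Finset.sum_sub_distrib]
  refine Finset.sum_congr rfl fun i _ => Finset.sum_congr rfl fun j _ => ?_
  ring

theorem lf_sub_left (c : Ix m → S) (r : Fin m) (a b : S) (x x' y : I m → S) :
    lf c r (fun i => a * x i - b * x' i) y = a * lf c r x y - b * lf c r x' y := by
  simp only [lf, Finset.mul_sum, ← Finset.sum_sub_distrib]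
  refine Finset.sum_congr rfl fun i _ => Finset.sum_congr rfl fun j _ => ?_
  ring

theorem pq_symm (c : Ix m → S) (i j k l : I m) : pq c i j k l = pq c j i k l := by
  simp only [pq]
  ring

theorem pq_symm' (c : Ix m → S) (i j k l : I m) : pq c i j k l = pq c i j l k := by
  simp only [pq]
  ring

theorem qf_comm (c : Ix m → S) (x x' y y' : I m → S) : qf c x x' y y' = qf c x' x y y' := by
  simp only [qf]
  rw [Finset.sum_comm]
  refine Finset.sum_congr rfl fun i _ => Finset.sum_congr rfl fun j _ =>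
    Finset.sum_congr rfl fun k _ => Finset.sum_congr rfl fun l _ => ?_
  rw [pq_symm]
  ring

theorem qf_comm' (c : Ix m → S) (x x' y y' : I m → S) : qf c x x' y y' = qf c x x' y' y := by
  simp only [qf]
  refine Finset.sum_congr rfl fun i _ => Finset.sum_congr rfl fun j _ => ?_
  rw [Finset.sum_comm]
  refine Finset.sum_congr rfl fun k _ => Finset.sum_congr rfl fun l _ => ?_
  rw [pq_symm']
  ring

theorem qf_lin1 (c : Ix m → S) (a b : S) (x1 x2 x' y y' : I m → S) :
    qf c (fun i => a * x1 i + b * x2 i) x' y y' = a * qf c x1 x' y y' + b * qf c x2 x' y y' := by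
  simp only [qf, Finset.mul_sum, ← Finset.sum_add_distrib]
  refine Finset.sum_congr rfl fun i _ => Finset.sum_congr rfl fun j _ =>
    Finset.sum_congr rfl fun k _ => Finset.sum_congr rfl fun l _ => ?_
  ring

theorem qf_lin2 (c : Ix m → S) (a b : S) (x x1 x2 y y' : I m → S) :
    qf c x (fun i => a * x1 i + b * x2 i) y y' = a * qf c x x1 y y' + b * qf c x x2 y y' := by
  rw [qf_comm, qf_lin1, qf_comm c x1, qf_comm c x2]

theorem qf_lin3 (c : Ix m → S) (a b : S) (x x' y1 y2 y' : I m → S) :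
    qf c x x' (fun i => a * y1 i + b * y2 i) y' = a * qf c x x' y1 y' + b * qf c x x' y2 y' := by
  simp only [qf, Finset.mul_sum, ← Finset.sum_add_distrib]
  refine Finset.sum_congr rfl fun i _ => Finset.sum_congr rfl fun j _ =>
    Finset.sum_congr rfl fun k _ => Finset.sum_congr rfl fun l _ => ?_
  ring

theorem qf_lin4 (c : Ix m → S) (a b : S) (x x' y y1 y2 : I m → S) :
    qf c x x' y (fun i => a * y1 i + b * y2 i) = a * qf c x x' y y1 + b * qf c x x' y y2 := by
  rw [qf_comm', qf_lin3, qf_comm' c x x' y1, qf_comm' c x x' y2]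

theorem ny_eq (c : Ix m → S) (x y : I m → S) :
    ny c x y = fun i => Ah c x * y i + -(2 * qf c x x y (Y1 c x)) * Y1 c x i := by
  funext i
  simp only [ny]
  ring

theorem nx_eq (c : Ix m → S) (x y : I m → S) :
    nx c x y = fun i => qf c (xh c y) (xh c y) y y * x i + -(2 * qf c x (xh c y) y y) * xh c y i := by
  funext i
  simp only [nx]
  ring

theorem onX_ny (c : Ix m → S) (x y : I m → S) (h : OnX c x y) : OnX c x (ny c x y) := by
  refine ⟨fun r => ?_, ?_⟩
  · show lf c r x (fun i => Ah c x * y i - 2 * qf c x x y (Y1 c x) * Y1 c x i) = 0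
    rw [lf_sub_right, h.1 r, lf_Y1]
    ring
  · rw [ny_eq, qf_lin3, qf_lin4, qf_lin4, h.2, qf_comm' c x x (Y1 c x) y,
      show qf c x x (Y1 c x) (Y1 c x) = Ah c x from rfl]
    ring

theorem onX_nx (c : Ix m → S) (x y : I m → S) (h : OnX c x y) : OnX c (nx c x y) y := by
  refine ⟨fun r => ?_, ?_⟩
  · show lf c r (fun i => qf c (xh c y) (xh c y) y y * x i - 2 * qf c x (xh c y) y y * xh c y i) y = 0
    rw [lf_sub_left, h.1 r, lf_xh]
    ring
  · rw [nx_eq, qf_lin1, qf_lin2, qf_lin2, h.2, qf_comm c (xh c y) x]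
    ring

/-- The curves of the chain lie on the complete intersection. -/
theorem onX_ch (c : Ix m → S) (x0 ξ0 y1 : I m → S) (l0 : ∀ r, lf c r x0 y1 = 0)
    (l1 : ∀ r, lf c r ξ0 y1 = 0) (q0 : qf c x0 x0 y1 y1 = 0) (q1 : qf c x0 ξ0 y1 y1 = 0)
    (q2 : qf c ξ0 ξ0 y1 y1 = 0) (N : ℕ) :
    OnX (fun e => Polynomial.C (c e)) (ch c x0 ξ0 y1 N).1 (ch c x0 ξ0 y1 N).2 := by
  induction N with
  | zero =>
    rw [ch_zero]
    have hx : (fun i => Polynomial.C (x0 i) + Polynomial.X * Polynomial.C (ξ0 i)) =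
        fun i => (1 : Polynomial S) * Polynomial.C (x0 i) + Polynomial.X * Polynomial.C (ξ0 i) := by
      funext i
      rw [one_mul]
    have hl : ∀ (r : Fin m) (x : I m → S), lf (fun e => Polynomial.C (c e)) r (fun i => Polynomial.C (x i))
        (fun i => Polynomial.C (y1 i)) = Polynomial.C (lf c r x y1) := fun r x =>
      (map_lf Polynomial.C c r x y1).symm
    have hq : ∀ (x x' : I m → S), qf (fun e => Polynomial.C (c e)) (fun i => Polynomial.C (x i))
        (fun i => Polynomial.C (x' i)) (fun i => Polynomial.C (y1 i)) (fun i => Polynomial.C (y1 i)) =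
        Polynomial.C (qf c x x' y1 y1) := fun x x' => (map_qf Polynomial.C c x x' y1 y1).symm
    refine ⟨fun r => ?_, ?_⟩
    · show lf (fun e => Polynomial.C (c e)) r
        (fun i => Polynomial.C (x0 i) + Polynomial.X * Polynomial.C (ξ0 i)) (fun i => Polynomial.C (y1 i)) = 0
      have h := lf_sub_left (fun e => Polynomial.C (c e)) r (1 : Polynomial S) (-Polynomial.X)
        (fun i => Polynomial.C (x0 i)) (fun i => Polynomial.C (ξ0 i)) (fun i => Polynomial.C (y1 i))
      have h2 : (fun i => Polynomial.C (x0 i) + Polynomial.X * Polynomial.C (ξ0 i)) =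
          fun i => (1 : Polynomial S) * Polynomial.C (x0 i) - -Polynomial.X * Polynomial.C (ξ0 i) := by
        funext i
        ring
      rw [h2, h, hl, hl, l0, l1]
      simp
    · show qf (fun e => Polynomial.C (c e))
        (fun i => Polynomial.C (x0 i) + Polynomial.X * Polynomial.C (ξ0 i))
        (fun i => Polynomial.C (x0 i) + Polynomial.X * Polynomial.C (ξ0 i))
        (fun i => Polynomial.C (y1 i)) (fun i => Polynomial.C (y1 i)) = 0
      rw [hx, qf_lin1, qf_lin2, qf_lin2, hq, hq, hq, hq, qf_comm c ξ0 x0, q0, q1, q2]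
      simp
  | succ N ih =>
    rcases Nat.even_or_odd N with hN | hN
    · rw [ch_even _ _ _ _ hN]
      exact onX_ny _ _ _ ih
    · rw [ch_odd _ _ _ _ hN]
      exact onX_nx _ _ _ ih

end onx

section rz

variable {m : ℕ} {k : Type*} [Field k] {c : Ix m → k} {x0 ξ0 y1 : I m → k} {N : ℕ} {x y : I m → k}

theorem Rz_scale (h : Rz c x0 ξ0 y1 N x y) {a b : k} (ha : a ≠ 0) (hb : b ≠ 0) :
    Rz c x0 ξ0 y1 N (fun i => a * x i) (fun i => b * y i) := by
  obtain ⟨τ, α, β, hα, hβ, h1, h2⟩ := h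
  refine ⟨τ, a * α, b * β, mul_ne_zero ha hα, mul_ne_zero hb hβ, fun i => ?_, fun i => ?_⟩
  · show a * x i = _
    rw [h1 i]
    ring
  · show b * y i = _
    rw [h2 i]
    ring

theorem eval_ny (X Y : I m → Polynomial k) (τ : k) (i : I m) :
    (ny (fun e => Polynomial.C (c e)) X Y i).eval τ =
      ny c (fun i => (X i).eval τ) (fun i => (Y i).eval τ) i := by
  have h := map_ny (Polynomial.evalRingHom τ) (fun e => Polynomial.C (c e)) X Y i
  simpa using h

theorem eval_nx (X Y : I m → Polynomial k) (τ : k) (i : I m) :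
    (nx (fun e => Polynomial.C (c e)) X Y i).eval τ =
      nx c (fun i => (X i).eval τ) (fun i => (Y i).eval τ) i := by
  have h := map_nx (Polynomial.evalRingHom τ) (fun e => Polynomial.C (c e)) X Y i
  simpa using h

/-- The point over the same `x` on the next curve. -/
theorem Rz_ny (hN : Even N) (h : Rz c x0 ξ0 y1 N x y) : Rz c x0 ξ0 y1 (N + 1) x (ny c x y) := by
  obtain ⟨τ, α, β, hα, hβ, h1, h2⟩ := h
  refine ⟨τ, α, α ^ (2 * m + 2) * β, hα, mul_ne_zero (pow_ne_zero _ hα) hβ, fun i => ?_, fun i => ?_⟩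
  · rw [ch_even _ _ _ _ hN]
    exact h1 i
  · rw [ch_even _ _ _ _ hN, eval_ny, ← ny_smul, ← funext h1, ← funext h2]

/-- The point over the same `y` on the next curve. -/
theorem Rz_nx (hN : Odd N) (h : Rz c x0 ξ0 y1 N x y) : Rz c x0 ξ0 y1 (N + 1) (nx c x y) y := by
  obtain ⟨τ, α, β, hα, hβ, h1, h2⟩ := h
  refine ⟨τ, α * β ^ (2 * m + 2), β, mul_ne_zero hα (pow_ne_zero _ hβ), hβ, fun i => ?_, fun i => ?_⟩
  · rw [ch_odd _ _ _ _ hN, eval_nx, ← nx_smul, ← funext h1, ← funext h2]
  · rw [ch_odd _ _ _ _ hN]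
    exact h2 i

theorem Rz_map {k' : Type*} [Field k'] (f : k →+* k') (h : Rz c x0 ξ0 y1 N x y) :
    Rz (fun e => f (c e)) (fun i => f (x0 i)) (fun i => f (ξ0 i)) (fun i => f (y1 i)) N
      (fun i => f (x i)) (fun i => f (y i)) := by
  obtain ⟨τ, α, β, hα, hβ, h1, h2⟩ := h
  refine ⟨f τ, f α, f β, (map_ne_zero f).2 hα, (map_ne_zero f).2 hβ, fun i => ?_, fun i => ?_⟩
  · show f (x i) = _
    rw [h1 i, map_mul, (ch_map f c x0 ξ0 y1 N).1 i, Polynomial.eval_map_apply]
  · show f (y i) = _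
    rw [h2 i, map_mul, (ch_map f c x0 ξ0 y1 N).2 i, Polynomial.eval_map_apply]

/-- The start: the line `{x0 + t ξ0} × {y1}`. -/
theorem Rz_start (c : Ix m → k) (x0 ξ0 y1 : I m → k) (t : k) :
    Rz c x0 ξ0 y1 0 (fun i => x0 i + t * ξ0 i) y1 := by
  refine ⟨t, 1, 1, one_ne_zero, one_ne_zero, fun i => ?_, fun i => ?_⟩
  · show x0 i + t * ξ0 i =
      1 * Polynomial.eval t (Polynomial.C (x0 i) + Polynomial.X * Polynomial.C (ξ0 i))
    simp only [Polynomial.eval_add, Polynomial.eval_mul, Polynomial.eval_C, Polynomial.eval_X,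
      one_mul]
  · show y1 i = 1 * Polynomial.eval t (Polynomial.C (y1 i))
    simp

theorem onX_smul (c : Ix m → k) (a b : k) (x y : I m → k) (h : OnX c x y) :
    OnX c (fun i => a * x i) (fun i => b * y i) := by
  refine ⟨fun r => ?_, ?_⟩
  · rw [lf_smul, h.1 r, mul_zero]
  · rw [qf_smul, h.2, mul_zero]

/-- The points of the curves lie on the complete intersection. -/
theorem Rz_onX (l0 : ∀ r, lf c r x0 y1 = 0) (l1 : ∀ r, lf c r ξ0 y1 = 0) (q0 : qf c x0 x0 y1 y1 = 0)
    (q1 : qf c x0 ξ0 y1 y1 = 0) (q2 : qf c ξ0 ξ0 y1 y1 = 0) (h : Rz c x0 ξ0 y1 N x y) : OnX c x y := by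
  obtain ⟨τ, α, β, hα, hβ, h1, h2⟩ := h
  rw [funext h1, funext h2]
  refine onX_smul c α β _ _ ?_
  have h3 := onX_ch c x0 ξ0 y1 l0 l1 q0 q1 q2 N
  refine ⟨fun r => ?_, ?_⟩
  · have h4 := congrArg (Polynomial.evalRingHom τ) (h3.1 r)
    rw [map_lf] at h4
    simpa using h4
  · have h4 := congrArg (Polynomial.evalRingHom τ) h3.2
    rw [map_qf] at h4
    simpa using h4

theorem fst_ne (h : Rz c x0 ξ0 y1 N x y) {i : I m} (hi : x i ≠ 0) : (ch c x0 ξ0 y1 N).1 i ≠ 0 := by
  obtain ⟨τ, α, β, hα, hβ, h1, h2⟩ := h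
  intro h0
  rw [h1 i, h0] at hi
  simp at hi

theorem snd_ne (h : Rz c x0 ξ0 y1 N x y) {i : I m} (hi : y i ≠ 0) : (ch c x0 ξ0 y1 N).2 i ≠ 0 := by
  obtain ⟨τ, α, β, hα, hβ, h1, h2⟩ := h
  intro h0
  rw [h2 i, h0] at hi
  simp at hi

theorem Ah_ne (h : Rz c x0 ξ0 y1 N x y) (hA : Ah c x ≠ 0) :
    Ah (fun e => Polynomial.C (c e)) (ch c x0 ξ0 y1 N).1 ≠ 0 := by
  obtain ⟨τ, α, β, hα, hβ, h1, h2⟩ := h
  intro h0
  apply hA
  rw [funext h1, Ah_smul]
  have h3 := congrArg (Polynomial.evalRingHom τ) h0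
  rw [map_Ah] at h3
  have h4 : Ah c (fun i => ((ch c x0 ξ0 y1 N).1 i).eval τ) = 0 := by simpa using h3
  rw [h4, mul_zero]

theorem Kx_ne (h : Rz c x0 ξ0 y1 N x y) (hK : qf c (xh c y) (xh c y) y y ≠ 0) :
    qf (fun e => Polynomial.C (c e))
      (xh (fun e => Polynomial.C (c e)) (ch c x0 ξ0 y1 N).2)
      (xh (fun e => Polynomial.C (c e)) (ch c x0 ξ0 y1 N).2)
      (ch c x0 ξ0 y1 N).2 (ch c x0 ξ0 y1 N).2 ≠ 0 := by
  obtain ⟨τ, α, β, hα, hβ, h1, h2⟩ := h
  intro h0
  apply hK
  rw [funext h2, Kx_smul]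
  have h3 := congrArg (Polynomial.evalRingHom τ) h0
  rw [map_qf] at h3
  simp only [map_xh] at h3
  have h4 : qf c (xh c fun i => ((ch c x0 ξ0 y1 N).2 i).eval τ) (xh c fun i => ((ch c x0 ξ0 y1 N).2 i).eval τ)
      (fun i => ((ch c x0 ξ0 y1 N).2 i).eval τ) (fun i => ((ch c x0 ξ0 y1 N).2 i).eval τ) = 0 := by
    simpa using h3
  rw [h4, mul_zero]

end rz

section forms

variable {m : ℕ} {K' k : Type*} [Field K'] [Field k] [Algebra K' k] {c : Ix m → K'}
  {x0 ξ0 y1 : I m → K'} {N : ℕ} {x y : I m → k}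

theorem eval_smul_form {F : MvPolynomial (I m) k} {e : ℕ} (hF : F.IsHomogeneous e) (a : k) (x : I m → k) :
    MvPolynomial.eval (fun i => a * x i) F = a ^ e * MvPolynomial.eval x F := by
  rw [MvPolynomial.eval_eq, MvPolynomial.eval_eq, Finset.mul_sum]
  refine Finset.sum_congr rfl fun d hd => ?_
  have h1 := hF (MvPolynomial.mem_support_iff.1 hd)
  have h2 : ∑ i ∈ d.support, d i = e := by
    rw [← h1, Finsupp.weight_apply]
    simp [Finsupp.sum]
  rw [← h2, ← Finset.prod_pow_eq_pow_sum]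
  simp only [mul_pow, Finset.prod_mul_distrib]
  ring

theorem aeval_eval (X : I m → Polynomial k) (F : MvPolynomial (I m) k) (τ : k) :
    (aeval X F).eval τ = MvPolynomial.eval (fun i => (X i).eval τ) F := by
  induction F using MvPolynomial.induction_on with
  | C a => simp
  | add p q hp hq => simp only [map_add, Polynomial.eval_add, hp, hq]
  | mul_X p n hp => simp only [map_mul, Polynomial.eval_mul, hp, aeval_X, MvPolynomial.eval_X]

/-- A form which vanishes on the curve `N` vanishes at all its points. -/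
theorem aeval_fst_zero {F : MvPolynomial (I m) k} {e : ℕ} (hF : F.IsHomogeneous e)
    (h0 : aeval (fun i => ((ch c x0 ξ0 y1 N).1 i).map (algebraMap K' k)) F = 0)
    (h : Rz (fun e => algebraMap K' k (c e)) (fun i => algebraMap K' k (x0 i))
      (fun i => algebraMap K' k (ξ0 i)) (fun i => algebraMap K' k (y1 i)) N x y) :
    MvPolynomial.eval x F = 0 := by
  obtain ⟨τ, α, β, hα, hβ, h1, h2⟩ := h
  have h3 := congrArg (Polynomial.eval τ) h0
  rw [aeval_eval, Polynomial.eval_zero] at h3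
  rw [funext h1, eval_smul_form hF]
  have h4 : (fun i => ((ch (fun e => algebraMap K' k (c e)) (fun i => algebraMap K' k (x0 i))
      (fun i => algebraMap K' k (ξ0 i)) (fun i => algebraMap K' k (y1 i)) N).1 i).eval τ) =
      fun i => (((ch c x0 ξ0 y1 N).1 i).map (algebraMap K' k)).eval τ := by
    funext i
    rw [(ch_map (algebraMap K' k) c x0 ξ0 y1 N).1 i]
  rw [h4, h3, mul_zero]

/-- A form which vanishes on the curve `N` vanishes at all its points. -/
theorem aeval_snd_zero {F : MvPolynomial (I m) k} {e : ℕ} (hF : F.IsHomogeneous e)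
    (h0 : aeval (fun i => ((ch c x0 ξ0 y1 N).2 i).map (algebraMap K' k)) F = 0)
    (h : Rz (fun e => algebraMap K' k (c e)) (fun i => algebraMap K' k (x0 i))
      (fun i => algebraMap K' k (ξ0 i)) (fun i => algebraMap K' k (y1 i)) N x y) :
    MvPolynomial.eval y F = 0 := by
  obtain ⟨τ, α, β, hα, hβ, h1, h2⟩ := h
  have h3 := congrArg (Polynomial.eval τ) h0
  rw [aeval_eval, Polynomial.eval_zero] at h3
  rw [funext h2, eval_smul_form hF]
  have h4 : (fun i => ((ch (fun e => algebraMap K' k (c e)) (fun i => algebraMap K' k (x0 i))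
      (fun i => algebraMap K' k (ξ0 i)) (fun i => algebraMap K' k (y1 i)) N).2 i).eval τ) =
      fun i => (((ch c x0 ξ0 y1 N).2 i).map (algebraMap K' k)).eval τ := by
    funext i
    rw [(ch_map (algebraMap K' k) c x0 ξ0 y1 N).2 i]
  rw [h4, h3, mul_zero]

end forms

end Pool.Agent.Helper37.XN
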